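import Mathlib
import Pool.Agent.H370R2.Digamma
import Pool.Agent.H902R3.XI.Stmts

open Complex MeasureTheory Filter Topology Set Metric
open scoped Real ENNReal

namespace Pool.Agent.H164R3.XI.TG

open Pool.Agent.H902R3.XI H370.DG

lemma ne_zero_of_im {z : ℂ} {y : ℝ} (hy : 0 < y) (hz : y ≤ z.im) : z ≠ 0 := by
  intro h
  rw [h] at hz
  simp at hz
  linarith

lemma slit_of_im {z : ℂ} {y : ℝ} (hy : 0 < y) (hz : y ≤ z.im) : z ∈ slitPlane := by
  right
  linarith

lemma norm_ge_of_im {z : ℂ} {y : ℝ} (hz : y ≤ z.im) : y ≤ ‖z‖ :=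
  hz.trans ((le_abs_self _).trans (abs_im_le_norm z))

lemma norm_inv_le {z : ℂ} {y : ℝ} (hy : 0 < y) (hz : y ≤ z.im) : ‖1 / z‖ ≤ 1 / y := by
  rw [norm_div, norm_one]
  exact one_div_le_one_div_of_le hy (norm_ge_of_im hz)

lemma convex_im (y : ℝ) : Convex ℝ {z : ℂ | y ≤ z.im} := convex_halfSpace_im_ge y

lemma log_diff {z w : ℂ} {y : ℝ} (hy : 0 < y) (hz : y ≤ z.im) (hw : y ≤ w.im) :
    ‖log w - log z‖ ≤ ‖w - z‖ / y := by
  have h := Convex.norm_image_sub_le_of_norm_hasDerivWithin_le (f := log) (f' := fun z => 1 / z)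
    (C := 1 / y) (s := {z : ℂ | y ≤ z.im}) (x := z) (y := w)
    (fun x hx => ((hasDerivAt_id x).clog (slit_of_im hy hx)).hasDerivWithinAt)
    (fun x hx => norm_inv_le hy hx) (convex_im y) hz hw
  refine h.trans (le_of_eq ?_)
  ring

lemma sum_tele (y : ℝ) (hy : 0 < y) (m : ℕ) :
    ∑ n ∈ Finset.range m, 2 / (((n : ℝ) + 1 + y) ^ 2) ≤ 2 * (1 / y - 1 / (m + y)) := by
  induction m with
  | zero => simp
  | succ m ih =>
    rw [Finset.sum_range_succ]
    have h : 2 / (((m : ℝ) + 1 + y) ^ 2) ≤ 2 * (1 / (m + y) - 1 / (m + 1 + y)) := by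
      have h1 : (0 : ℝ) < m + y := by positivity
      have h2 : (0 : ℝ) < m + 1 + y := by positivity
      have e : 2 * (1 / ((m : ℝ) + y) - 1 / (m + 1 + y)) = 2 / ((m + y) * (m + 1 + y)) := by
        field_simp
        ring
      rw [e]
      apply div_le_div_of_nonneg_left (by norm_num) (by positivity)
      nlinarith
    push_cast
    linarith

lemma norm_er_le' (n : ℕ) {s : ℂ} {y : ℝ} (hs : 0 < s.re) (hy : 0 < y) (hsy : y ≤ s.im) :
    ‖er n s‖ ≤ 2 / (((n : ℝ) + 1 + y) ^ 2) := by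
  have hn : (0 : ℝ) ≤ n := Nat.cast_nonneg n
  have hre : (s + ((n : ℂ) + 2)).re = s.re + (n + 2) := by
    simp only [add_re, natCast_re, re_ofNat]
  have him : (s + ((n : ℂ) + 2)).im = s.im := by
    simp
  have h1 := log_step (z := s + ((n : ℂ) + 2)) (by rw [hre]; linarith)
  have h2 : s + ((n : ℂ) + 2) + 1 = s + (n + 3) := by ring
  rw [h2] at h1
  refine h1.trans ?_
  rw [Complex.sq_norm, Complex.normSq_apply, hre, him]
  have h3 : ((n : ℝ) + 1 + y) ^ 2 / 2 ≤ (s.re + (n + 2)) * (s.re + (n + 2)) + s.im * s.im := by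
    have a1 : ((n : ℝ) + 1) ^ 2 ≤ (s.re + (n + 2)) * (s.re + (n + 2)) := by nlinarith
    have a2 : y ^ 2 ≤ s.im * s.im := by nlinarith
    nlinarith [sq_nonneg ((n : ℝ) + 1 - y)]
  calc 1 / ((s.re + (n + 2)) * (s.re + (n + 2)) + s.im * s.im)
      ≤ 1 / (((n : ℝ) + 1 + y) ^ 2 / 2) := one_div_le_one_div_of_le (by positivity) h3
    _ = _ := by
      field_simp

lemma norm_tsum_er' {s : ℂ} {y : ℝ} (hs : 0 < s.re) (hy : 0 < y) (hsy : y ≤ s.im) :
    ‖∑' n, er n s‖ ≤ 2 / y := by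
  have hb : ∀ m : ℕ, ∑ n ∈ Finset.range m, 2 / (((n : ℝ) + 1 + y) ^ 2) ≤ 2 / y := by
    intro m
    refine (sum_tele y hy m).trans ?_
    have : (0 : ℝ) < 1 / (m + y) := by positivity
    have e : 2 / y = 2 * (1 / y) := by ring
    rw [e]
    linarith
  have hs1 : Summable (fun n : ℕ => 2 / (((n : ℝ) + 1 + y) ^ 2)) :=
    summable_of_sum_range_le (fun n => by positivity) hb
  have h1 : ‖∑' n, er n s‖ ≤ ∑' n : ℕ, 2 / (((n : ℝ) + 1 + y) ^ 2) :=
    tsum_of_norm_bounded hs1.hasSum fun n => norm_er_le' n hs hy hsy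
  exact h1.trans (Real.tsum_le_of_sum_range_le (fun n => by positivity) hb)

/-- logarithm of `g` -/
noncomputable def GG (k : ℕ) (s : ℂ) : ℂ :=
  log s + log (s - 1) - log 2 - s / 2 * log π + lG (s / 2 + k)
    - ∑ j ∈ Finset.range k, log (s / 2 + j)

lemma Gamma_shift {w : ℂ} (hw : ∀ j : ℕ, w + j ≠ 0) (k : ℕ) :
    Gamma (w + k) = (∏ j ∈ Finset.range k, (w + j)) * Gamma w := by
  induction k with
  | zero => simp
  | succ k ih =>
    have e : w + ((k + 1 : ℕ) : ℂ) = (w + k) + 1 := by push_cast; ring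
    rw [e, Complex.Gamma_add_one _ (hw k), ih, Finset.prod_range_succ]
    ring

lemma exp_GG {k : ℕ} {s : ℂ} (hs : 0 < s.im) (hk : 0 < (s / 2 + k).re) :
    cexp (GG k s) = g s := by
  have him : ∀ j : ℕ, (s / 2 + j).im = s.im / 2 := by
    intro j
    simp
  have hne : ∀ j : ℕ, s / 2 + j ≠ 0 := by
    intro j
    apply ne_zero_of_im (y := s.im / 2) (by linarith)
    rw [him]
  have h0 : s ≠ 0 := ne_zero_of_im hs le_rfl
  have h1 : s - 1 ≠ 0 := ne_zero_of_im (y := s.im) hs (by simp)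
  unfold GG g
  rw [exp_sub, exp_add, exp_sub, exp_sub, exp_add, exp_log h0, exp_log h1, exp_log two_ne_zero,
    exp_lG hk, Gamma_shift hne k, exp_sum]
  have hprod : ∏ j ∈ Finset.range k, cexp (log (s / 2 + (j : ℂ))) =
      ∏ j ∈ Finset.range k, (s / 2 + (j : ℂ)) := by
    apply Finset.prod_congr rfl
    intro j _
    rw [exp_log (hne j)]
  rw [hprod]
  have hp : ∏ j ∈ Finset.range k, (s / 2 + (j : ℂ)) ≠ 0 :=
    Finset.prod_ne_zero_iff.mpr fun j _ => hne j
  have hpi : (π : ℂ) ≠ 0 := by exact_mod_cast Real.pi_ne_zero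
  rw [cpow_def_of_ne_zero hpi]
  have e : log (π : ℂ) * (-s / 2) = - (s / 2 * log π) := by ring
  rw [e, exp_neg]
  have he : cexp (s / 2 * log π) ≠ 0 := exp_ne_zero _
  generalize ∏ j ∈ Finset.range k, (s / 2 + (j : ℂ)) = P at hp ⊢
  field_simp

/-- derivative of `GG` -/
noncomputable def dGG (k : ℕ) (s : ℂ) : ℂ :=
  1 / s + 1 / (s - 1) - 1 / 2 * log π +
    (log (s / 2 + k + 2) - 1 / (s / 2 + k) - 1 / (s / 2 + k + 1) + ∑' n, er n (s / 2 + k)) * (1 / 2)
    - ∑ j ∈ Finset.range k, (1 / 2) / (s / 2 + j)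

lemma hasDerivAt_GG {k : ℕ} {s : ℂ} (hs : 0 < s.im) (hk : 0 < (s / 2 + k).re) :
    HasDerivAt (GG k) (dGG k s) s := by
  have him : ∀ j : ℕ, (s / 2 + j).im = s.im / 2 := by
    intro j
    simp
  have h1 : HasDerivAt (fun z : ℂ => log z) (1 / s) s :=
    (hasDerivAt_id s).clog (slit_of_im hs le_rfl)
  have h2 : HasDerivAt (fun z : ℂ => log (z - 1)) (1 / (s - 1)) s :=
    ((hasDerivAt_id s).sub_const 1).clog (slit_of_im (y := s.im) hs (by simp))
  have h3 : HasDerivAt (fun z : ℂ => z / 2 * log π) (1 / 2 * log π) s :=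
    ((hasDerivAt_id s).div_const 2).mul_const _
  have h4 : HasDerivAt (fun z : ℂ => lG (z / 2 + k))
      ((-(1 / (s / 2 + k)) - 1 / (s / 2 + k + 1) + ∑' n, gd n (s / 2 + k)) * (1 / 2)) s := by
    have a1 := hasDerivAt_lG hk
    have a2 : HasDerivAt (fun z : ℂ => z / 2 + k) (1 / 2) s :=
      ((hasDerivAt_id s).div_const 2).add_const _
    exact HasDerivAt.comp s a1 a2
  have h5 : HasDerivAt (fun z : ℂ => ∑ j ∈ Finset.range k, log (z / 2 + j))
      (∑ j ∈ Finset.range k, (1 / 2) / (s / 2 + j)) s := by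
    apply HasDerivAt.fun_sum
    intro j _
    have a2 : HasDerivAt (fun z : ℂ => z / 2 + j) (1 / 2) s :=
      ((hasDerivAt_id s).div_const 2).add_const _
    exact a2.clog (slit_of_im (y := s.im / 2) (by linarith) (by rw [him]))
  have h6 := (((((h1.add h2).sub_const (log 2)).sub h3).add h4).sub h5)
  have e : dGG k s = 1 / s + 1 / (s - 1) - 1 / 2 * log π +
      (-(1 / (s / 2 + k)) - 1 / (s / 2 + k + 1) + ∑' n, gd n (s / 2 + k)) * (1 / 2)
      - ∑ j ∈ Finset.range k, (1 / 2) / (s / 2 + j) := by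
    unfold dGG
    rw [tsum_gd hk]
    ring
  rw [e]
  exact h6

lemma a_eq {s : ℂ} (hs : s ≠ 0) : a s = (log (s / 2) - log π) / 2 := by
  unfold a
  have hpi : 0 < π := Real.pi_pos
  have hpi' : (π : ℂ) ≠ 0 := by exact_mod_cast Real.pi_ne_zero
  have e : s / (2 * π) = ((π⁻¹ : ℝ) : ℂ) * (s / 2) := by
    push_cast
    field_simp
  rw [e, log_ofReal_mul (by positivity) (by simpa using hs), Real.log_inv,
    Complex.ofReal_neg, Complex.ofReal_log hpi.le]
  ring

lemma dGG_sub_a {k : ℕ} {s : ℂ} {T : ℝ} (hT : 0 < T) (hs : T / 2 ≤ s.im)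
    (hk : 0 < (s / 2 + k).re) : ‖dGG k s - a s‖ ≤ (4 * k + 16) / T := by
  have hs0 : 0 < s.im := by linarith
  have him : ∀ j : ℕ, (s / 2 + j).im = s.im / 2 := by
    intro j
    simp
  have hne : s ≠ 0 := ne_zero_of_im hs0 le_rfl
  have e : dGG k s - a s = (1 / s + 1 / (s - 1)) + (log (s / 2 + k + 2) - log (s / 2)) * (1 / 2)
      - (1 / (s / 2 + k)) * (1 / 2) - (1 / (s / 2 + k + 1)) * (1 / 2)
      + (∑' n, er n (s / 2 + k)) * (1 / 2)
      - ∑ j ∈ Finset.range k, (1 / 2) / (s / 2 + j) := by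
    rw [a_eq hne]
    unfold dGG
    ring
  have hy : 0 < T / 4 := by linarith
  have b1 : ‖1 / s‖ ≤ 1 / (T / 2) := norm_inv_le (by linarith) hs
  have b2 : ‖1 / (s - 1)‖ ≤ 1 / (T / 2) := norm_inv_le (by linarith) (by simpa using hs)
  have b3 : ‖log (s / 2 + k + 2) - log (s / 2)‖ ≤ (k + 2) / (T / 4) := by
    have h := log_diff (z := s / 2) (w := s / 2 + k + 2) hy (by simp; linarith)
      (by simp; linarith)
    have e : s / 2 + k + 2 - s / 2 = ((k + 2 : ℝ) : ℂ) := by push_cast; ring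
    rw [e, Complex.norm_real, Real.norm_eq_abs, abs_of_nonneg (by positivity)] at h
    exact h
  have b4 : ‖1 / (s / 2 + k)‖ ≤ 1 / (T / 4) := norm_inv_le hy (by rw [him]; linarith)
  have b5 : ‖1 / (s / 2 + k + 1)‖ ≤ 1 / (T / 4) := norm_inv_le hy (by simp; linarith)
  have b6 : ‖∑' n, er n (s / 2 + k)‖ ≤ 2 / (T / 4) := norm_tsum_er' hk hy (by rw [him]; linarith)
  have b7 : ‖∑ j ∈ Finset.range k, (1 / 2) / (s / 2 + j)‖ ≤ k * (2 / T) := by
    refine (norm_sum_le _ _).trans ?_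
    have : ∀ j ∈ Finset.range k, ‖(1 / 2) / (s / 2 + (j : ℂ))‖ ≤ 2 / T := by
      intro j _
      have h := norm_inv_le hy (z := s / 2 + j) (by rw [him]; linarith)
      have e : (1 / 2) / (s / 2 + (j : ℂ)) = (1 / 2) * (1 / (s / 2 + j)) := by ring
      rw [e, norm_mul]
      have e2 : ‖(1 / 2 : ℂ)‖ = 1 / 2 := by simp
      rw [e2]
      have e3 : 2 / T = 1 / 2 * (1 / (T / 4)) := by
        field_simp
        ring
      rw [e3]
      gcongr
    refine (Finset.sum_le_sum this).trans ?_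
    simp
  have n1 : ‖(1 / 2 : ℂ)‖ = 1 / 2 := by simp
  have c3 : ‖(log (s / 2 + k + 2) - log (s / 2)) * (1 / 2)‖ ≤ (k + 2) / (T / 4) * (1 / 2) := by
    rw [norm_mul, n1]; gcongr
  have c4 : ‖(1 / (s / 2 + k)) * (1 / 2)‖ ≤ 1 / (T / 4) * (1 / 2) := by
    rw [norm_mul, n1]; gcongr
  have c5 : ‖(1 / (s / 2 + k + 1)) * (1 / 2)‖ ≤ 1 / (T / 4) * (1 / 2) := by
    rw [norm_mul, n1]; gcongr
  have c6 : ‖(∑' n, er n (s / 2 + k)) * (1 / 2)‖ ≤ 2 / (T / 4) * (1 / 2) := by
    rw [norm_mul, n1]; gcongr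
  rw [e]
  have tri := norm_sub_le ((1 / s + 1 / (s - 1)) + (log (s / 2 + k + 2) - log (s / 2)) * (1 / 2)
      - (1 / (s / 2 + k)) * (1 / 2) - (1 / (s / 2 + k + 1)) * (1 / 2)
      + (∑' n, er n (s / 2 + k)) * (1 / 2)) (∑ j ∈ Finset.range k, (1 / 2) / (s / 2 + j))
  have tri2 := norm_add_le ((1 / s + 1 / (s - 1)) + (log (s / 2 + k + 2) - log (s / 2)) * (1 / 2)
      - (1 / (s / 2 + k)) * (1 / 2) - (1 / (s / 2 + k + 1)) * (1 / 2))
      ((∑' n, er n (s / 2 + k)) * (1 / 2))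
  have tri3 := norm_sub_le ((1 / s + 1 / (s - 1)) + (log (s / 2 + k + 2) - log (s / 2)) * (1 / 2)
      - (1 / (s / 2 + k)) * (1 / 2)) ((1 / (s / 2 + k + 1)) * (1 / 2))
  have tri4 := norm_sub_le ((1 / s + 1 / (s - 1)) + (log (s / 2 + k + 2) - log (s / 2)) * (1 / 2))
      ((1 / (s / 2 + k)) * (1 / 2))
  have tri5 := norm_add_le (1 / s + 1 / (s - 1))
    ((log (s / 2 + k + 2) - log (s / 2)) * (1 / 2))
  have tri6 := norm_add_le (1 / s) (1 / (s - 1))
  have hfin : 1 / (T / 2) + 1 / (T / 2) + (k + 2) / (T / 4) * (1 / 2) + 1 / (T / 4) * (1 / 2) +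
      1 / (T / 4) * (1 / 2) + 2 / (T / 4) * (1 / 2) + k * (2 / T) = (4 * k + 16) / T := by
    field_simp
    ring
  linarith

lemma a_diff {s z : ℂ} {T : ℝ} (hT : 0 < T) (hs : T / 2 ≤ s.im) (hz : T / 2 ≤ z.im) :
    ‖a z - a s‖ ≤ ‖z - s‖ / T := by
  have hs0 : 0 < s.im := by linarith
  have hz0 : 0 < z.im := by linarith
  rw [a_eq (ne_zero_of_im hs0 le_rfl), a_eq (ne_zero_of_im hz0 le_rfl)]
  have h := log_diff (z := s / 2) (w := z / 2) (y := T / 4) (by linarith) (by simp; linarith)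
    (by simp; linarith)
  have e : (log (z / 2) - log π) / 2 - (log (s / 2) - log π) / 2 =
      (log (z / 2) - log (s / 2)) * (1 / 2) := by ring
  have n1 : ‖(1 / 2 : ℂ)‖ = 1 / 2 := by simp
  rw [e, norm_mul, n1]
  have e2 : z / 2 - s / 2 = (z - s) * (1 / 2) := by ring
  rw [e2, norm_mul, n1] at h
  have e3 : ‖z - s‖ * (1 / 2) / (T / 4) * (1 / 2) = ‖z - s‖ / T := by
    field_simp
    ring
  rw [← e3]
  gcongr

lemma region_convex (B T : ℝ) : Convex ℝ {s : ℂ | InR B T s} := by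
  have h1 : {s : ℂ | InR B T s} = ({s : ℂ | T / 2 ≤ s.im} ∩ {s : ℂ | s.im ≤ 2 * T}) ∩
      ({s : ℂ | -(B * Real.log T) ≤ s.re} ∩ {s : ℂ | s.re ≤ B * Real.log T}) := by
    ext s
    simp only [InR, mem_setOf_eq, mem_inter_iff, abs_le]
    tauto
  rw [h1]
  exact ((convex_halfSpace_im_ge _).inter (convex_halfSpace_im_le _)).inter
    ((convex_halfSpace_re_ge _).inter (convex_halfSpace_re_le _))

lemma g_ne_zero {s : ℂ} (hs : 0 < s.im) : g s ≠ 0 := by
  obtain ⟨k, hk⟩ := exists_nat_gt (-(s / 2).re)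
  have hk' : 0 < (s / 2 + k).re := by
    rw [add_re, natCast_re]
    linarith
  rw [← exp_GG hs hk']
  exact exp_ne_zero _

lemma analyticAt_g {s : ℂ} (hs : 0 < s.im) : AnalyticAt ℂ g s := by
  obtain ⟨k, hk⟩ := exists_nat_gt (-(s / 2).re)
  have hk' : 0 < (s / 2 + k).re := by
    rw [add_re, natCast_re]
    linarith
  have ho : IsOpen ({z : ℂ | 0 < z.im} ∩ {z : ℂ | 0 < (z / 2 + k).re}) := by
    apply (isOpen_lt continuous_const continuous_im).inter
    apply isOpen_lt continuous_const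
    fun_prop
  have hd : DifferentiableOn ℂ g ({z : ℂ | 0 < z.im} ∩ {z : ℂ | 0 < (z / 2 + k).re}) := by
    have h1 : DifferentiableOn ℂ (fun z => cexp (GG k z))
        ({z : ℂ | 0 < z.im} ∩ {z : ℂ | 0 < (z / 2 + k).re}) := fun z hz =>
      ((hasDerivAt_GG hz.1 hz.2).cexp).differentiableAt.differentiableWithinAt
    exact h1.congr fun z hz => (exp_GG hz.1 hz.2).symm
  exact hd.analyticAt (ho.mem_nhds ⟨hs, hk'⟩)

theorem taskG : TaskG := by
  intro B hB
  refine ⟨4 * B + 24, by positivity, Real.exp 1, ?_⟩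
  intro T hT s s' hs hs'
  have hT0 : 0 < T := (Real.exp_pos 1).trans_le hT
  have hlog : 1 ≤ Real.log T := by
    rw [Real.le_log_iff_exp_le hT0]
    exact hT
  obtain ⟨k, hk⟩ : ∃ k : ℕ, k = ⌈B * Real.log T⌉₊ + 1 := ⟨_, rfl⟩
  have hk1 : B * Real.log T < k := by
    rw [hk]
    push_cast
    have := Nat.le_ceil (B * Real.log T)
    linarith
  have hk2 : (k : ℝ) ≤ B * Real.log T + 2 := by
    rw [hk]
    push_cast
    have := Nat.ceil_lt_add_one (show 0 ≤ B * Real.log T by positivity)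
    linarith
  have hpos : ∀ z : ℂ, InR B T z → 0 < (z / 2 + k).re := by
    intro z hz
    have h1 := (abs_le.mp hz.2.2).1
    have e : (z / 2 + k).re = z.re / 2 + k := by simp
    have hBl : 0 < B * Real.log T := by positivity
    rw [e]
    linarith
  have him : ∀ z : ℂ, InR B T z → 0 < z.im := by
    intro z hz
    have := hz.1
    linarith
  refine ⟨GG k s' - GG k s - (s' - s) * a s, ?_, ?_⟩
  · have e : (s' - s) * a s + (GG k s' - GG k s - (s' - s) * a s) = GG k s' - GG k s := by ring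
    rw [e, exp_sub, exp_GG (him s' hs') (hpos s' hs'), exp_GG (him s hs) (hpos s hs)]
    rw [mul_div_cancel₀]
    exact g_ne_zero (him s hs)
  · have hconv := (convex_segment s s' : Convex ℝ (segment ℝ s s'))
    have hseg : segment ℝ s s' ⊆ {z : ℂ | InR B T z} := (region_convex B T).segment_subset hs hs'
    have hmv := Convex.norm_image_sub_le_of_norm_hasDerivWithin_le
      (f := fun z => GG k z - (z - s) * a s) (f' := fun z => dGG k z - a s)
      (C := (4 * k + 16) / T + ‖s' - s‖ / T) (s := segment ℝ s s') (x := s) (y := s')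
      (fun z hz => by
        have h1 := hasDerivAt_GG (him z (hseg hz)) (hpos z (hseg hz))
        have h2 : HasDerivAt (fun z : ℂ => (z - s) * a s) (1 * a s) z :=
          ((hasDerivAt_id z).sub_const s).mul_const (a s)
        rw [one_mul] at h2
        exact (h1.sub h2).hasDerivWithinAt)
      (fun z hz => by
        have h1 := dGG_sub_a hT0 (hseg hz).1 (hpos z (hseg hz))
        have h2 := a_diff hT0 hs.1 (hseg hz).1
        have h3 : ‖z - s‖ ≤ ‖s' - s‖ := by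
          have := norm_sub_le_of_mem_segment hz
          simpa [norm_sub_rev] using this
        have e : dGG k z - a s = (dGG k z - a z) + (a z - a s) := by ring
        rw [e]
        refine (norm_add_le _ _).trans (add_le_add h1 (h2.trans ?_))
        gcongr)
      hconv (left_mem_segment ℝ s s') (right_mem_segment ℝ s s')
    have e : GG k s' - GG k s - (s' - s) * a s = (GG k s' - (s' - s) * a s) - (GG k s - (s - s) * a s) := by
      ring
    rw [e]
    refine hmv.trans ?_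
    have hn : 0 ≤ ‖s' - s‖ := norm_nonneg _
    have h4 : 4 * (k : ℝ) + 16 ≤ (4 * B + 24) * Real.log T := by nlinarith
    have e2 : ((4 * (k : ℝ) + 16) / T + ‖s' - s‖ / T) * ‖s' - s‖ =
        (‖s' - s‖ ^ 2 + ‖s' - s‖ * (4 * k + 16)) / T := by ring
    rw [e2]
    apply div_le_div_of_nonneg_right _ hT0.le
    have h5 : ‖s' - s‖ * (4 * k + 16) ≤ ‖s' - s‖ * ((4 * B + 24) * Real.log T) :=
      mul_le_mul_of_nonneg_left h4 hn
    have h6 : ‖s' - s‖ ^ 2 ≤ (4 * B + 24) * ‖s' - s‖ ^ 2 := by nlinarith [sq_nonneg ‖s' - s‖]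
    nlinarith

end Pool.Agent.H164R3.XI.TG
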